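import Pool.Agent.helper51.NP.Spec

/-!
# Project np (MP_5628fe_nt): module FX (the class of `x` and the fixed divisors)
-/

set_option autoImplicit false

namespace NPC

open Finset Real ArithmeticFunction Pool.Agent.helper39.MT Pool.Agent.helper85.FC

/-- A number all of whose prime factors divide `Q` divides `Q ^ n`. -/
lemma FX_dvd_pow {n Q : ℕ} (hn : n ≠ 0) (hQ : Q ≠ 0) (h : ∀ p : ℕ, p.Prime → p ∣ n → p ∣ Q) :
    n ∣ Q ^ n := by
  rw [← Nat.factorization_prime_le_iff_dvd hn (pow_ne_zero _ hQ)]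
  intro p hp
  rw [Nat.factorization_pow]
  by_cases hpn : p ∣ n
  · have h1 : 1 ≤ Q.factorization p :=
      (hp.dvd_iff_one_le_factorization hQ).mp (h p hp hpn)
    have h2 : n.factorization p < n := Nat.factorization_lt p hn
    simp only [Finsupp.coe_smul, Pi.smul_apply, smul_eq_mul]
    nlinarith
  · rw [Nat.factorization_eq_zero_of_not_dvd hpn]
    exact Nat.zero_le _

/-- distinct primes larger than `D`. -/
lemma FX_primes (k D : ℕ) : ∃ r : Fin k → ℕ, Function.Injective r ∧ (∀ i, (r i).Prime) ∧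
    ∀ i, D < r i := by
  have hinf : ({p : ℕ | p.Prime} \ Set.Iic D).Infinite :=
    Nat.infinite_setOfPred_prime.sdiff (Set.finite_Iic D)
  let f := hinf.natEmbedding
  refine ⟨fun i => (f (i : ℕ) : ℕ), ?_, ?_, ?_⟩
  · intro i j hij
    have h1 : f (i : ℕ) = f (j : ℕ) := Subtype.ext hij
    exact Fin.ext (f.injective h1)
  · intro i
    exact (f (i : ℕ)).2.1
  · intro i
    have := (f (i : ℕ)).2.2
    simpa using this

/-- The chinese remainder theorem in the form needed. -/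
lemma FX_crt {k : ℕ} (h M₂ x₁ : ℕ) (g r e : Fin k → ℕ) (hM₂ : 0 < M₂)
    (hr : Function.Injective r) (hrp : ∀ i, (r i).Prime) (hrM : ∀ i, ¬ r i ∣ M₂)
    (hrg : ∀ i, ¬ r i ∣ g i) : ∃ x₂ : ℕ, x₂ ≡ x₁ [MOD M₂] ∧
      ∀ i, g i * x₂ + h ≡ r i ^ e i [MOD r i ^ (e i + 1)] := by
  have hy : ∀ i, ∃ y : ℕ, g i * y + h ≡ r i ^ e i [MOD r i ^ (e i + 1)] := by
    intro i
    have hcop : Nat.Coprime (g i) (r i ^ (e i + 1)) :=
      Nat.Coprime.pow_right _ ((hrp i).coprime_iff_not_dvd.mpr (hrg i)).symm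
    have hpos : 0 < r i ^ (e i + 1) := pow_pos (hrp i).pos _
    -- `g y = t` with `t ≡ r^e - h`
    obtain ⟨t, ht⟩ : ∃ t : ℕ, t + h ≡ r i ^ e i [MOD r i ^ (e i + 1)] := by
      refine ⟨r i ^ e i + (r i ^ (e i + 1) - 1) * h, ?_⟩
      have h1 : r i ^ e i + (r i ^ (e i + 1) - 1) * h + h = r i ^ e i + r i ^ (e i + 1) * h := by
        obtain ⟨m, hm⟩ : ∃ m, r i ^ (e i + 1) = m + 1 := ⟨_, (Nat.succ_pred_eq_of_pos hpos).symm⟩
        rw [hm, Nat.add_sub_cancel]
        ring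
      rw [h1]
      exact ((Nat.modEq_iff_dvd' (Nat.le_add_right _ _)).mpr (by simp)).symm
    have hone : 1 < r i ^ (e i + 1) := Nat.one_lt_pow (Nat.succ_ne_zero _) (hrp i).one_lt
    obtain ⟨z, -, hz⟩ := Nat.exists_mul_mod_eq_one_of_coprime hcop hone
    refine ⟨z * t, ?_⟩
    have h2 : g i * (z * t) ≡ t [MOD r i ^ (e i + 1)] := by
      have h3 : g i * z ≡ 1 [MOD r i ^ (e i + 1)] := by
        rw [Nat.ModEq, hz, Nat.mod_eq_of_lt hone]
      calc g i * (z * t) = g i * z * t := by ring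
        _ ≡ 1 * t [MOD r i ^ (e i + 1)] := Nat.ModEq.mul_right t h3
        _ = t := one_mul t
    exact (Nat.ModEq.add_right h h2).trans ht
  choose y hy using hy
  have hpw : Set.Pairwise (↑(Finset.univ : Finset (Fin k)))
      (Function.onFun Nat.Coprime (fun i => r i ^ (e i + 1))) := by
    intro i _ j _ hij
    have h1 : r i ≠ r j := fun h0 => hij (hr h0)
    exact Nat.Coprime.pow _ _ ((Nat.coprime_primes (hrp i) (hrp j)).mpr h1)
  obtain ⟨z, hz⟩ := Nat.chineseRemainderOfFinset y (fun i => r i ^ (e i + 1)) Finset.univ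
    (fun i _ => pow_ne_zero _ (hrp i).ne_zero) hpw
  have hcop : Nat.Coprime M₂ (∏ i, r i ^ (e i + 1)) := by
    refine Nat.Coprime.prod_right fun i _ => ?_
    exact Nat.Coprime.pow_right _ ((hrp i).coprime_iff_not_dvd.mpr (hrM i)).symm
  obtain ⟨x₂, hx1, hx2⟩ := Nat.chineseRemainder hcop x₁ z
  refine ⟨x₂, hx1, fun i => ?_⟩
  have h1 : x₂ ≡ z [MOD r i ^ (e i + 1)] :=
    hx2.of_dvd (Finset.dvd_prod_of_mem (fun i => r i ^ (e i + 1)) (Finset.mem_univ i))
  have h2 : x₂ ≡ y i [MOD r i ^ (e i + 1)] := h1.trans (hz i (Finset.mem_univ i))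
  exact ((h2.mul_left (g i)).add_right h).trans (hy i)


theorem FX : FX_stmt := by
  intro k h g hg hg0 hh x₁ M D₀ hM
  -- the bound `D` and the product `Q` of the small primes
  set D : ℕ := D₀ + M + h + ∑ i, g i with hD
  set Q : ℕ := primorial D with hQdef
  have hQ0 : 0 < Q := primorial_pos D
  have hQp : ∀ p : ℕ, p.Prime → (p ∣ Q ↔ p ≤ D) := by
    intro p hp
    constructor
    · intro hpQ
      rw [hQdef, primorial, hp.prime.dvd_finsetProd_iff] at hpQ
      obtain ⟨q, hq, hpq⟩ := hpQ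
      rw [Finset.mem_filter, Finset.mem_range] at hq
      have h1 := (Nat.prime_dvd_prime_iff_eq hp hq.2).mp hpq
      omega
    · intro hpD
      exact Finset.dvd_prod_of_mem (fun p : ℕ => p)
        (Finset.mem_filter.mpr ⟨Finset.mem_range.mpr (by omega), hp⟩)
  have hgD : ∀ i, g i ≤ D := by
    intro i
    have h1 : g i ≤ ∑ i, g i := Finset.single_le_sum (f := g) (fun _ _ => Nat.zero_le _)
      (Finset.mem_univ i)
    omega
  set E : ℕ := 1 + ∑ i, (g i * x₁ + h) with hE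
  have hNE : ∀ i, g i * x₁ + h + 1 ≤ E := by
    intro i
    have h1 : g i * x₁ + h ≤ ∑ i, (g i * x₁ + h) :=
      Finset.single_le_sum (f := fun i => g i * x₁ + h) (fun _ _ => Nat.zero_le _)
        (Finset.mem_univ i)
    omega
  have hE1 : 1 ≤ E := by omega
  set M₂ : ℕ := M * Q ^ E with hM₂
  have hM₂0 : 0 < M₂ := Nat.mul_pos hM (pow_pos hQ0 _)
  have hpM₂ : ∀ p : ℕ, p.Prime → p ∣ M₂ → p ∣ Q := by
    intro p hp hpm
    rcases hp.dvd_mul.mp hpm with h1 | h1
    · refine (hQp p hp).mpr ?_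
      have := Nat.le_of_dvd hM h1
      omega
    · exact hp.dvd_of_dvd_pow h1
  have hQM₂ : Q ∣ M₂ := Dvd.dvd.mul_left (dvd_pow_self Q (by omega)) M
  -- the smooth parts
  set c' : Fin k → ℕ := fun i => Nat.gcd (g i * x₁ + h) (Q ^ E) with hc'
  have hc'0 : ∀ i, 0 < c' i := fun i => Nat.gcd_pos_of_pos_right _ (pow_pos hQ0 _)
  have hc'Q : ∀ i, ∀ p : ℕ, p.Prime → p ∣ c' i → p ∣ Q := fun i p hp hpc =>
    hp.dvd_of_dvd_pow (hpc.trans (Nat.gcd_dvd_right _ _))
  have hc'E : ∀ i, c' i ∣ Q ^ (E - 1) := by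
    intro i
    have h1 : c' i ∣ Q ^ c' i := FX_dvd_pow (hc'0 i).ne' hQ0.ne' (hc'Q i)
    refine h1.trans (pow_dvd_pow Q ?_)
    have h2 : c' i ≤ g i * x₁ + h := Nat.gcd_le_left _ (by omega)
    have := hNE i
    omega
  have hc'p : ∀ i, ∀ p : ℕ, p ∣ Q → c' i * p ∣ Q ^ E := by
    intro i p hp
    have h1 : Q ^ E = Q ^ (E - 1) * Q := by
      rw [← pow_succ]
      congr 1
      omega
    rw [h1]
    exact Nat.mul_dvd_mul (hc'E i) hp
  -- the primes `r i`
  obtain ⟨r, hrinj, hrp, hrD⟩ := FX_primes k D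
  have hrQ : ∀ i, ¬ r i ∣ Q := by
    intro i h1
    have := (hQp _ (hrp i)).mp h1
    have := hrD i
    omega
  have hrM₂ : ∀ i, ¬ r i ∣ M₂ := fun i h1 => hrQ i (hpM₂ _ (hrp i) h1)
  have hrg : ∀ i l, ¬ r i ∣ g l := by
    intro i l h1
    have h2 := Nat.le_of_dvd (hg0 l) h1
    have := hrD i
    have := hgD l
    omega
  have hrh : ∀ i, ¬ r i ∣ h := by
    intro i h1
    have h2 := Nat.le_of_dvd hh h1
    have := hrD i
    omega
  -- the exponents
  set S : ℕ := 1 + ∑ l, cardFactors (c' l) with hS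
  have hΩS : ∀ i, cardFactors (c' i) + 1 ≤ S := by
    intro i
    have h1 : cardFactors (c' i) ≤ ∑ l, cardFactors (c' l) :=
      Finset.single_le_sum (f := fun l => cardFactors (c' l)) (fun _ _ => Nat.zero_le _)
        (Finset.mem_univ i)
    omega
  set e : Fin k → ℕ := fun i => S + cardFactors (g i) - cardFactors (c' i) with he
  have he1 : ∀ i, 1 ≤ e i := by
    intro i
    have := hΩS i
    simp only [he]
    omega
  have hesum : ∀ i, cardFactors (c' i) + e i = cardFactors (g i) + S := by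
    intro i
    have := hΩS i
    simp only [he]
    omega
  obtain ⟨x₂, hx₂, hx₂r⟩ := FX_crt h M₂ x₁ g r e hM₂0 hrinj hrp hrM₂ (fun i => hrg i i)
  -- divisibility of the values
  have hgcd : ∀ i, Nat.gcd (g i * x₂ + h) (Q ^ E) = c' i := by
    intro i
    have h1 : x₂ ≡ x₁ [MOD Q ^ E] := hx₂.of_dvd (Dvd.intro_left M rfl)
    exact ((h1.mul_left (g i)).add_right h).gcd_eq
  have hc'N : ∀ i, c' i ∣ g i * x₂ + h := by
    intro i
    rw [← hgcd i]
    exact Nat.gcd_dvd_left _ _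
  have hno : ∀ i, ∀ p : ℕ, p.Prime → p ∣ Q → ¬ c' i * p ∣ g i * x₂ + h := by
    intro i p hp hpQ h1
    have h2 : c' i * p ∣ c' i := by
      conv_rhs => rw [← hgcd i]
      exact Nat.dvd_gcd h1 (hc'p i p hpQ)
    have h3 := Nat.le_of_dvd (hc'0 i) h2
    have := hp.two_le
    have := hc'0 i
    nlinarith
  have hreN : ∀ i, r i ^ e i ∣ g i * x₂ + h := by
    intro i
    have h1 : g i * x₂ + h ≡ r i ^ e i [MOD r i ^ e i] :=
      (hx₂r i).of_dvd (pow_dvd_pow _ (Nat.le_succ _))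
    exact (Nat.modEq_zero_iff_dvd.mp (h1.trans (Nat.modEq_zero_iff_dvd.mpr dvd_rfl)))
  have hrnot : ∀ i, ¬ r i ^ (e i + 1) ∣ g i * x₂ + h := by
    intro i h1
    have h2 : r i ^ (e i + 1) ∣ r i ^ e i :=
      Nat.modEq_zero_iff_dvd.mp ((hx₂r i).symm.trans (Nat.modEq_zero_iff_dvd.mpr h1))
    have h3 := (Nat.pow_dvd_pow_iff_le_right (hrp i).one_lt).mp h2
    omega
  have hrN : ∀ i, r i ∣ g i * x₂ + h := fun i =>
    (dvd_pow_self (r i) (by have := he1 i; omega)).trans (hreN i)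
  have hrother : ∀ i l, l ≠ i → ¬ r l ∣ g i * x₂ + h := by
    intro i l hli h1
    have h2 := hrN l
    -- `g i N_l - g l N_i = h (g i - g l)`
    have key : ∀ a b : ℕ, a < b → a ≤ D → b ≤ D → r l ∣ a * x₂ + h → r l ∣ b * x₂ + h → False := by
      intro a b hab _ hbD ha hb
      have h3 : r l ∣ (b - a) * h := by
        have h4 : b * (a * x₂ + h) - a * (b * x₂ + h) = (b - a) * h := by
          have h5 : b * (a * x₂ + h) = a * (b * x₂ + h) + (b - a) * h := by
            obtain ⟨d, rfl⟩ := Nat.exists_eq_add_of_lt hab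
            have h6 : a + d + 1 - a = d + 1 := by omega
            rw [h6]
            ring
          omega
        rw [← h4]
        exact Nat.dvd_sub (Dvd.dvd.mul_left ha b) (Dvd.dvd.mul_left hb a)
      rcases (hrp l).dvd_mul.mp h3 with h4 | h4
      · have h5 := Nat.le_of_dvd (by omega) h4
        have := hrD l
        omega
      · exact hrh l h4
    rcases lt_or_gt_of_ne hli with h3 | h3
    · exact key (g l) (g i) (hg h3) (hgD l) (hgD i) h2 h1
    · exact key (g i) (g l) (hg h3) (hgD i) (hgD l) h1 h2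
  -- the modulus
  set Rr : ℕ := ∏ i, r i ^ (e i + 1) with hRr
  have hRr0 : 0 < Rr := Finset.prod_pos fun i _ => pow_pos (hrp i).pos _
  have hrRr : ∀ i, r i ^ (e i + 1) ∣ Rr := fun i =>
    Finset.dvd_prod_of_mem (fun i => r i ^ (e i + 1)) (Finset.mem_univ i)
  have hpW : ∀ p : ℕ, p.Prime → p ∣ M₂ * Rr → p ∣ Q ∨ ∃ l, p = r l := by
    intro p hp hpW
    rcases hp.dvd_mul.mp hpW with h1 | h1
    · exact Or.inl (hpM₂ p hp h1)
    · rw [hRr, hp.prime.dvd_finsetProd_iff] at h1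
      obtain ⟨l, -, hl⟩ := h1
      exact Or.inr ⟨l, (Nat.prime_dvd_prime_iff_eq hp (hrp l)).mp (hp.dvd_of_dvd_pow hl)⟩
  have hQW : ∀ p : ℕ, p ∣ Q → p ∣ M₂ * Rr := fun p hp => Dvd.dvd.mul_right (hp.trans hQM₂) Rr
  have hcop : ∀ i, Nat.Coprime (c' i) (r i ^ e i) := by
    intro i
    refine Nat.Coprime.pow_right _ (((hrp i).coprime_iff_not_dvd.mpr ?_).symm)
    intro h1
    exact hrQ i (hc'Q i _ (hrp i) h1)
  have hc'M₂ : ∀ i, c' i ∣ M₂ := fun i => Dvd.dvd.mul_left (Nat.gcd_dvd_right _ _) M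
  have hcN : ∀ i, c' i * r i ^ e i ∣ g i * x₂ + h := fun i =>
    (hcop i).mul_dvd_of_dvd_of_dvd (hc'N i) (hreN i)
  refine ⟨x₂, M₂ * Rr, S, fun i => c' i * r i ^ e i, hx₂.of_dvd (Dvd.intro _ rfl),
    Dvd.dvd.mul_right (Dvd.intro _ rfl) Rr, Nat.mul_pos hM₂0 hRr0, ?_, ?_, ?_, ?_, ?_⟩
  · intro p hp hpD
    exact hQW p ((hQp p hp).mpr (by omega))
  · intro p hp hph
    have := Nat.le_of_dvd hh hph
    exact hQW p ((hQp p hp).mpr (by omega))
  · intro p hp i hpg
    have := Nat.le_of_dvd (hg0 i) hpg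
    have := hgD i
    exact hQW p ((hQp p hp).mpr (by omega))
  · intro p hp i j hij hpg
    have := Nat.le_of_dvd (by have := hg hij; omega) hpg
    have := hgD j
    exact hQW p ((hQp p hp).mpr (by omega))
  · intro i
    refine ⟨Nat.mul_pos (hc'0 i) (pow_pos (hrp i).pos _), hcN i, ?_, ?_, ?_⟩
    · intro p hp hpW'
      rcases hpW p hp hpW' with h1 | ⟨l, rfl⟩
      · have h2 : c' i * r i ^ e i * p = (c' i * p) * r i ^ e i := by ring
        rw [h2]
        exact Nat.mul_dvd_mul ((hc'p i p h1).trans (Dvd.intro_left M rfl))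
          ((pow_dvd_pow _ (Nat.le_succ _)).trans (hrRr i))
      · rw [mul_assoc]
        refine Nat.mul_dvd_mul (hc'M₂ i) ?_
        by_cases hli : l = i
        · subst hli
          rw [← pow_succ]
          exact hrRr l
        · refine Nat.Coprime.mul_dvd_of_dvd_of_dvd ?_
            ((pow_dvd_pow _ (Nat.le_succ _)).trans (hrRr i))
            ((dvd_pow_self (r l) (Nat.succ_ne_zero _)).trans (hrRr l))
          exact Nat.Coprime.pow_left _ ((Nat.coprime_primes (hrp i) (hrp l)).mpr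
            fun h0 => hli (hrinj h0).symm)
    · refine Nat.coprime_of_dvd fun p hp h1 h2 => ?_
      have h3 : c' i * r i ^ e i * p ∣ g i * x₂ + h := by
        obtain ⟨m, hm⟩ := hcN i
        have h4 : (g i * x₂ + h) / (c' i * r i ^ e i) = m := by
          rw [hm]
          exact Nat.mul_div_cancel_left m (Nat.mul_pos (hc'0 i) (pow_pos (hrp i).pos _))
        rw [h4] at h1
        rw [hm]
        exact Nat.mul_dvd_mul dvd_rfl h1
      rcases hpW p hp h2 with h4 | ⟨l, rfl⟩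
      · refine hno i p hp h4 (dvd_trans ?_ h3)
        exact ⟨r i ^ e i, by ring⟩
      · by_cases hli : l = i
        · subst hli
          refine hrnot l (dvd_trans ?_ h3)
          exact ⟨c' l, by rw [pow_succ]; ring⟩
        · exact hrother i l hli ((Dvd.intro_left _ rfl).trans h3)
    · rw [cardFactors_mul (hc'0 i).ne' (pow_ne_zero _ (hrp i).ne_zero), cardFactors_pow,
        cardFactors_apply_prime (hrp i), mul_one]
      exact hesum i

end NPC
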